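import Pool.Agent.H9.Haar1

namespace Pool.Agent.Results.MP_7cef9e_pr.Outlier

open MeasureTheory Complex Filter Topology Finset Pool.Agent.H9.Haar1

/-- The Cauchy transform of a measure on the line. -/
noncomputable def cauchy (μ : Measure ℝ) (w : ℂ) : ℂ := ∫ x, (w - x)⁻¹ ∂μ

/-- `R` is the R-transform of `μ` near `0`. -/
def IsR (μ : Measure ℝ) (R : ℂ → ℂ) : Prop :=
  AnalyticAt ℂ R 0 ∧ ∀ᶠ z in 𝓝[≠] 0, cauchy μ (R z + 1 / z) = z

/-- A compactly supported probability measure. -/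
def CompactProb (μ : Measure ℝ) : Prop :=
  IsProbabilityMeasure μ ∧ ∃ L : ℝ, μ (Set.Icc (-L) L)ᶜ = 0

/-- Free infinite divisibility: for every `k ≥ 1` there is a compactly supported probability
measure `ν` whose `k`-fold free convolution is `μ`, i.e. `R_μ = k R_ν` near `0`. -/
def FreeID (μ : Measure ℝ) : Prop :=
  ∀ k : ℕ, 1 ≤ k → ∃ (ν : Measure ℝ) (Rν Rμ : ℂ → ℂ), CompactProb ν ∧ IsR ν Rν ∧ IsR μ Rμ ∧
    ∀ᶠ z in 𝓝 0, Rμ z = k * Rν z

/-- The rank one spherical integral `I_n(z, E)`. -/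
noncomputable def sph {n : ℕ} [MeasurableSpace (Matrix.unitaryGroup (Fin n) ℂ)]
    (m : Measure (Matrix.unitaryGroup (Fin n) ℂ)) (E : Matrix (Fin n) (Fin n) ℂ) (z : ℂ) : ℂ :=
  ∫ g, exp (n * Matrix.trace (g.1 * Matrix.diagonal (fun i => if i.1 = 0 then z else 0) *
    star g.1 * E)) ∂m

/-- The logarithmic derivative `f_n(z)`. -/
noncomputable def logd {n : ℕ} [MeasurableSpace (Matrix.unitaryGroup (Fin n) ℂ)]
    (m : Measure (Matrix.unitaryGroup (Fin n) ℂ)) (E : Matrix (Fin n) (Fin n) ℂ) (z : ℂ) : ℂ :=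
  deriv (sph m E) z / (n * sph m E z)

noncomputable def S (k : ℕ) (w : ℂ) : ℂ := ∑ i ∈ range k, w ^ i / i.factorial

lemma S_deriv (k : ℕ) (w : ℂ) : HasDerivAt (S (k + 1)) (S k w) w := by
  have e : S (k + 1) = fun w : ℂ => ∑ i ∈ range k, w ^ (i + 1) / (i + 1).factorial + 1 := by
    funext w
    simp [S, sum_range_succ']
  rw [e, S]
  refine HasDerivAt.add_const _ (HasDerivAt.fun_sum fun i _ => ?_)
  refine ((hasDerivAt_pow (i + 1) w).div_const _).congr_deriv ?_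
  have : (i.factorial : ℂ) ≠ 0 := by exact_mod_cast i.factorial_ne_zero
  have : (i + 1 : ℂ) ≠ 0 := by exact_mod_cast i.succ_ne_zero
  rw [Nat.factorial_succ]
  push_cast
  field_simp

lemma S_bound (z : ℂ) (hz : 1 ≤ ‖z‖) (n k : ℕ) (hk : k ≤ n) :
    ‖S k (n * z) / exp (n * z)‖ ≤ (‖z‖ * Real.exp (1 - z.re)) ^ n := by
  have h1 : ‖S k (n * z)‖ ≤ ‖z‖ ^ n * Real.exp n := by
    refine (norm_sum_le _ _).trans (le_trans ?_ (mul_le_mul_of_nonneg_left
      (Real.sum_le_exp_of_nonneg (Nat.cast_nonneg n) k) (by positivity)))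
    rw [mul_sum]
    refine sum_le_sum fun i hi => ?_
    simp only [norm_div, norm_pow, norm_mul, norm_natCast, mul_pow]
    rw [← mul_div_assoc, mul_comm]
    have := mem_range.1 hi
    gcongr
    omega
  rw [norm_div, norm_exp, div_le_iff₀ (Real.exp_pos _), mul_pow, mul_assoc, ← Real.exp_nat_mul,
    ← Real.exp_add]
  refine h1.trans (le_of_eq ?_)
  congr 2
  simp
  ring

lemma sph_eq {N : ℕ} [MeasurableSpace (U (N + 1))] [BorelSpace (U (N + 1))]
    (m : Measure (U (N + 1))) [IsProbabilityMeasure m] [m.IsMulLeftInvariant] (z : ℂ) (hz : z ≠ 0) :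
    sph m (Matrix.diagonal fun i => ((if i.1 = 0 then 1 else 0 : ℝ) : ℂ)) z =
      N.factorial * (exp ((N + 1 : ℕ) * z) - S N ((N + 1 : ℕ) * z)) / ((N + 1 : ℕ) * z) ^ N := by
  have hn : ((N + 1 : ℕ) : ℂ) ≠ 0 := by exact_mod_cast N.succ_ne_zero
  rw [S, ← mgf m, mul_div_cancel_left₀ _ (pow_ne_zero _ (mul_ne_zero hn hz))]
  refine integral_congr_ae (Eventually.of_forall fun g => ?_)
  simp only [mul_assoc]
  congr 2
  simp [Matrix.trace, Matrix.mul_apply, Matrix.diagonal_apply, Fin.sum_univ_succ, P, ← mul_conj]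
  ring

lemma lim (z : ℂ) (hz : 1 ≤ ‖z‖) (hρ : ‖z‖ * Real.exp (1 - z.re) < 1)
    [∀ n, MeasurableSpace (U n)] [∀ n, BorelSpace (U n)] (m : ∀ n, Measure (U n))
    [∀ n, IsProbabilityMeasure (m n)] [∀ n, (m n).IsMulLeftInvariant] :
    Tendsto (fun n => logd (m n) (Matrix.diagonal fun i => ((if i.1 = 0 then 1 else 0 : ℝ) : ℂ)) z)
      atTop (𝓝 (1 - 1 / z)) := by
  have hz0 : z ≠ 0 := norm_pos_iff.1 (by linarith)
  rw [← tendsto_add_atTop_iff_nat 2]
  have hlim : Tendsto (fun M : ℕ => (‖z‖ * Real.exp (1 - z.re)) ^ (M + 2)) atTop (𝓝 0) :=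
    (tendsto_add_atTop_iff_nat 2).2 (tendsto_pow_atTop_nhds_zero_of_lt_one (by positivity) hρ)
  have e1 : Tendsto (fun M : ℕ => S M ((M + 2 : ℕ) * z) / exp ((M + 2 : ℕ) * z)) atTop (𝓝 0) :=
    squeeze_zero_norm (fun M => S_bound z hz _ _ (by omega)) hlim
  have e2 : Tendsto (fun M : ℕ => S (M + 1) ((M + 2 : ℕ) * z) / exp ((M + 2 : ℕ) * z)) atTop (𝓝 0) :=
    squeeze_zero_norm (fun M => S_bound z hz _ _ (by omega)) hlim
  have e3 : Tendsto (fun M : ℕ => (((M + 2 : ℕ) : ℂ))⁻¹) atTop (𝓝 0) :=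
    (tendsto_add_atTop_iff_nat 2).2 (tendsto_inv_atTop_nhds_zero_nat (𝕜 := ℂ))
  have e4 := ((e1.const_sub 1).div (e2.const_sub 1) (by simp)).sub ((e3.const_sub 1).div_const z)
  simp only [sub_zero, div_one] at e4
  refine e4.congr' ?_
  filter_upwards [(e2.const_sub 1).eventually_ne (b₂ := 0) (by simp)] with M hM
  have hn : ((M + 2 : ℕ) : ℂ) ≠ 0 := by exact_mod_cast (M + 1).succ_ne_zero
  have hl : HasDerivAt (fun y : ℂ => ((M + 2 : ℕ) : ℂ) * y) (M + 2 : ℕ) z := by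
    simpa using (hasDerivAt_id z).const_mul ((M + 2 : ℕ) : ℂ)
  have hd := ((hl.cexp.sub ((S_deriv M _).comp z hl)).const_mul ((M + 1).factorial : ℂ)).div
    (hl.fun_pow (M + 1)) (pow_ne_zero _ (mul_ne_zero hn hz0))
  have hev : sph (m (M + 2)) (Matrix.diagonal fun i => ((if i.1 = 0 then 1 else 0 : ℝ) : ℂ)) =ᶠ[𝓝 z] _ :=
    (eventually_ne_nhds hz0).mono fun y hy => sph_eq (N := M + 1) (m (M + 2)) y hy
  have hd2 := (hd.congr_of_eventuallyEq hev).deriv
  rw [logd, hd2, sph_eq (N := M + 1) (m (M + 2)) z hz0]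
  have hf : ((M + 1).factorial : ℂ) ≠ 0 := by exact_mod_cast (M + 1).factorial_ne_zero
  have he := exp_ne_zero ((M + 2 : ℕ) * z)
  have hM' : exp ((M + 2 : ℕ) * z) - S (M + 1) ((M + 2 : ℕ) * z) ≠ 0 := by
    intro h
    rw [← sub_eq_zero.1 h, div_self he] at hM
    exact hM (sub_self _)
  simp only [Pi.div_apply, Pi.sub_apply, Function.comp, Nat.add_sub_cancel, add_assoc,
    one_add_one_eq_two]
  have hc : ((M + 1 : ℕ) : ℂ) = (M + 2 : ℕ) - 1 := by push_cast; ring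
  rw [hc]
  generalize ((M + 2 : ℕ) : ℂ) = n at *
  field_simp
  ring

lemma isR_dirac : IsR (Measure.dirac 0) 0 :=
  ⟨analyticAt_const, Eventually.of_forall fun z => by simp [cauchy]⟩

lemma cp_dirac : CompactProb (Measure.dirac 0) := ⟨inferInstance, 0, by simp⟩

theorem result [∀ n, MeasurableSpace (Matrix.unitaryGroup (Fin n) ℂ)]
    [∀ n, BorelSpace (Matrix.unitaryGroup (Fin n) ℂ)]
    (m : ∀ n, Measure (Matrix.unitaryGroup (Fin n) ℂ))
    [∀ n, IsProbabilityMeasure (m n)] [∀ n, (m n).IsMulLeftInvariant] :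
    ∃ (lam : ∀ n, Fin n → ℝ) (μ : Measure ℝ) (R : ℂ → ℂ) (z c : ℂ),
      (∃ L, ∀ n i, |lam n i| ≤ L) ∧ CompactProb μ ∧
      (∀ φ : BoundedContinuousFunction ℝ ℝ,
        Tendsto (fun n : ℕ => (∑ i, φ (lam n i)) / n) atTop (𝓝 (∫ x, φ x ∂μ))) ∧
      FreeID μ ∧ IsR μ R ∧ Differentiable ℂ R ∧ 0 < z.im ∧ c ≠ R z ∧
      Tendsto (fun n => logd (m n) (Matrix.diagonal fun i => (lam n i : ℂ)) z) atTop (𝓝 c) := by
  have hz : ‖(4 + 3 * I : ℂ)‖ = 5 := by
    rw [← sq_eq_sq₀ (norm_nonneg _) (by norm_num), ← normSq_eq_norm_sq]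
    simp [normSq_apply]
    norm_num
  refine ⟨fun n i => if i.1 = 0 then 1 else 0, Measure.dirac 0, 0, 4 + 3 * I, 1 - 1 / (4 + 3 * I),
    ⟨1, fun n i => by beta_reduce; split_ifs <;> simp⟩, cp_dirac, fun φ => ?_,
    fun k _ => ⟨_, 0, 0, cp_dirac, isR_dirac, isR_dirac, by simp⟩, isR_dirac,
    differentiable_const _, by simp, fun h => ?_, lim _ (by rw [hz]; norm_num) ?_ m⟩
  · rw [← tendsto_add_atTop_iff_nat 1, integral_dirac]
    have e3 : Tendsto (fun M : ℕ => (((M + 1 : ℕ) : ℝ))⁻¹) atTop (𝓝 0) :=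
      (tendsto_add_atTop_iff_nat 1).2 (tendsto_inv_atTop_nhds_zero_nat (𝕜 := ℝ))
    have := (e3.const_mul (φ 1 - φ 0)).const_add (φ 0)
    simp only [mul_zero, add_zero] at this
    refine this.congr fun M => ?_
    simp [Fin.sum_univ_succ]
    field_simp
    ring
  · have := congrArg norm (sub_eq_zero.1 h)
    rw [norm_div, hz] at this
    norm_num at this
  · rw [hz, show 1 - (4 + 3 * I : ℂ).re = -(1 + 1 + 1) by simp; norm_num, Real.exp_neg,
      Real.exp_add, Real.exp_add, ← div_eq_mul_inv, div_lt_one (by positivity)]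
    have := Real.add_one_le_exp 1
    nlinarith [mul_le_mul this this (by norm_num) (by linarith)]

end Pool.Agent.Results.MP_7cef9e_pr.Outlier
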